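import Pool.Agent.H38.AB.Targets

/-!
# Row AAB of the board aab_modules: abc for almost all triples with few prime factors
-/

set_option autoImplicit false

open Pool.Agent.H38.RB Pool.Agent.H38.PS Pool.Agent.H82.RD Pool.Agent.H38.AB

namespace Pool.Agent.H33.AB

/-- the radical of an admissible triple is at least two -/
theorem aab_two {x : Fin 3 → ℤ} (hx : Adm x) : 2 ≤ pd (pr x).primeFactors := by
  obtain ⟨h0, -, hs⟩ := hx
  have hne : x 0 * x 1 * x 2 ≠ 0 := mul_ne_zero (mul_ne_zero (h0 0) (h0 1)) (h0 2)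
  have hdvd : (2 : ℤ) ∣ x 0 * x 1 * x 2 := by
    rcases Int.emod_two_eq_zero_or_one (x 0) with h | h
    · exact ((Int.dvd_of_emod_eq_zero h).mul_right _).mul_right _
    · rcases Int.emod_two_eq_zero_or_one (x 1) with h' | h'
      · exact ((Int.dvd_of_emod_eq_zero h').mul_left _).mul_right _
      · have h2 : x 2 % 2 = 0 := by omega
        exact (Int.dvd_of_emod_eq_zero h2).mul_left _
  have h2 : 2 ∣ pr x := by
    unfold pr
    have := Int.natAbs_dvd_natAbs.2 hdvd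
    simpa using this
  have hpr : pr x ≠ 0 := by
    unfold pr
    exact Int.natAbs_ne_zero.2 hne
  have hmem : 2 ∈ (pr x).primeFactors := Nat.mem_primeFactors.2 ⟨Nat.prime_two, h2, hpr⟩
  have hpos : 0 < pd (pr x).primeFactors :=
    Finset.prod_pos fun p hp => (Nat.prime_of_mem_primeFactors hp).pos
  exact Nat.le_of_dvd hpos (Finset.dvd_prod_of_mem (fun p => p) hmem)

theorem pf_AAB (hRG1 : T_RG1) (hRG2 : T_RG2) (hTRM : T_TRM) : T_AAB := by
  intro β ε hβ hβ2 hε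
  have hδ : 0 < min ε (1 / 100 : ℝ) := lt_min hε (by norm_num)
  obtain ⟨A₀, C₂, hA₀, hC₂, h2⟩ := hRG2 β (min ε (1 / 100)) hβ hβ2 hδ
  obtain ⟨C₁, hC₁, h1⟩ := hRG1 A₀ ε hA₀ hε
  obtain ⟨C₃, hC₃, h3⟩ := hTRM β (min ε (1 / 100)) hβ hβ2 hδ
  refine ⟨C₁ + C₂ + C₃, by positivity, ?_⟩
  intro X hX
  set S : Set (Fin 3 → ℤ) := {x | Adm x ∧ (pd (pr x).primeFactors : ℝ) ≤ X ∧
    ((pr x).primeFactors.card : ℝ) ≤ Real.log X ^ β ∧ pd (pr x).primeFactors < ht x} with hS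
  rcases lt_or_ge X 2 with hX2 | hX2
  · have hemp : S = ∅ := by
      rw [Set.eq_empty_iff_forall_notMem]
      rintro x ⟨hx, hx1, -⟩
      have h4 : (2 : ℝ) ≤ (pd (pr x).primeFactors : ℝ) := by exact_mod_cast aab_two hx
      linarith
    rw [hemp]
    refine ⟨Set.finite_empty, ?_⟩
    rw [Set.ncard_empty]
    push_cast
    positivity
  · obtain ⟨f1, g1⟩ := h1 X hX
    obtain ⟨f2, g2⟩ := h2 X hX2
    obtain ⟨f3, g3⟩ := h3 X hX
    set S₁ : Set (Fin 3 → ℤ) := {x | Adm x ∧ (pd (pr x).primeFactors : ℝ) ≤ X ∧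
      pd (pr x).primeFactors < ht x ∧ Real.log (ht x) ≤ A₀ * Real.log X} with hS₁
    set S₂ : Set (Fin 3 → ℤ) := {x | Adm x ∧ (pd (pr x).primeFactors : ℝ) ≤ X ∧
      ((pr x).primeFactors.card : ℝ) ≤ Real.log X ^ β ∧ A₀ * Real.log X ≤ Real.log (ht x) ∧
      Real.log (ht x) ≤ Real.exp (Real.log X ^ (1 / 2 : ℝ))} with hS₂
    set S₃ : Set (Fin 3 → ℤ) := {x | Adm x ∧ (pd (pr x).primeFactors : ℝ) ≤ X ∧
      ((pr x).primeFactors.card : ℝ) ≤ Real.log X ^ β ∧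
      Real.exp (Real.log X ^ (1 / 2 : ℝ)) ≤ Real.log (ht x)} with hS₃
    have hsub : S ⊆ (S₁ ∪ S₂) ∪ S₃ := by
      rintro x ⟨hx, hx1, hx2, hx3⟩
      rcases le_total (Real.log (ht x)) (A₀ * Real.log X) with h4 | h4
      · exact Or.inl (Or.inl ⟨hx, hx1, hx3, h4⟩)
      · rcases le_total (Real.log (ht x)) (Real.exp (Real.log X ^ (1 / 2 : ℝ))) with h5 | h5
        · exact Or.inl (Or.inr ⟨hx, hx1, hx2, h4, h5⟩)
        · exact Or.inr ⟨hx, hx1, hx2, h5⟩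
    have hfin : ((S₁ ∪ S₂) ∪ S₃).Finite := (f1.union f2).union f3
    refine ⟨hfin.subset hsub, ?_⟩
    have hcard : S.ncard ≤ S₁.ncard + S₂.ncard + S₃.ncard :=
      (Set.ncard_le_ncard hsub hfin).trans
        ((Set.ncard_union_le _ _).trans (Nat.add_le_add_right (Set.ncard_union_le _ _) _))
    have hcardR : (S.ncard : ℝ) ≤ (S₁.ncard : ℝ) + (S₂.ncard : ℝ) + (S₃.ncard : ℝ) := by
      exact_mod_cast hcard
    have hδε : min ε (1 / 100 : ℝ) ≤ ε := min_le_left _ _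
    have hδ2 : min ε (1 / 100 : ℝ) ≤ 1 / 100 := min_le_right _ _
    have e2 : X ^ (5 / 9 + min ε (1 / 100 : ℝ)) ≤ X ^ (4 / 7 + ε) :=
      Real.rpow_le_rpow_of_exponent_le hX (by linarith)
    have e3 : X ^ (1 / 2 + min ε (1 / 100 : ℝ)) ≤ X ^ (4 / 7 + ε) :=
      Real.rpow_le_rpow_of_exponent_le hX (by linarith)
    have k2 := g2.trans (mul_le_mul_of_nonneg_left e2 hC₂.le)
    have k3 := g3.trans (mul_le_mul_of_nonneg_left e3 hC₃.le)
    calc (S.ncard : ℝ) ≤ (S₁.ncard : ℝ) + (S₂.ncard : ℝ) + (S₃.ncard : ℝ) := hcardR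
      _ ≤ C₁ * X ^ (4 / 7 + ε) + C₂ * X ^ (4 / 7 + ε) + C₃ * X ^ (4 / 7 + ε) :=
        add_le_add (add_le_add g1 k2) k3
      _ = (C₁ + C₂ + C₃) * X ^ (4 / 7 + ε) := by ring

end Pool.Agent.H33.AB
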