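import Pool.Agent.H38.AB.Targets

/-!
# Row HCU of the board aab_modules: a prime not dividing a given number
-/

set_option autoImplicit false

open Pool.Agent.H38.RB Pool.Agent.H38.PS Pool.Agent.H82.RD Pool.Agent.H38.AB

namespace Pool.Agent.H33.AB

/-- Chebyshev's lower bound -/
theorem hcu_theta (x : ℝ) (hx : 6250000 ≤ x) : x / 2 ≤ Chebyshev.theta x := by
  have hx0 : 0 < x := by linarith
  have h1 := Chebyshev.theta_ge' (x := x) (by linarith)
  obtain ⟨s, hs50, hs⟩ : ∃ s : ℝ, 50 ≤ s ∧ s ^ 4 = x := by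
    refine ⟨x ^ (1 / 4 : ℝ), ?_, ?_⟩
    · have h2 : ((50 : ℝ) ^ 4) ^ (1 / 4 : ℝ) ≤ x ^ (1 / 4 : ℝ) :=
        Real.rpow_le_rpow (by norm_num) (by norm_num; exact hx) (by norm_num)
      have h3 : ((50 : ℝ) ^ 4) ^ (1 / 4 : ℝ) = 50 := by
        rw [← Real.rpow_natCast, ← Real.rpow_mul (by norm_num)]
        norm_num
      rwa [h3] at h2
    · rw [← Real.rpow_natCast, ← Real.rpow_mul hx0.le]
      norm_num
  have hs0 : 0 < s := by linarith
  have hlogx : Real.log x ≤ 4 * s := by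
    rw [← hs, Real.log_pow]
    have := Real.log_le_sub_one_of_pos hs0
    push_cast
    linarith
  have hsq : Real.sqrt x = s ^ 2 := by
    rw [← hs, show s ^ 4 = (s ^ 2) ^ 2 by ring, Real.sqrt_sq (by positivity)]
  have hlog2 : (0.69 : ℝ) ≤ Real.log 2 := by
    have := Real.log_two_gt_d9
    linarith
  have hlogx2 : Real.log (x + 2) ≤ 2 + 4 * s := by
    have h2 : Real.log (x + 2) ≤ Real.log (3 * x) := Real.log_le_log (by linarith) (by linarith)
    rw [Real.log_mul (by norm_num) hx0.ne'] at h2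
    have h3 : Real.log 3 ≤ 2 := by
      have := Real.log_le_sub_one_of_pos (show (0 : ℝ) < 3 by norm_num)
      linarith
    linarith
  have h4 : 2 * Real.sqrt x * Real.log x ≤ 8 * s ^ 3 := by
    rw [hsq]
    have h5 : 0 ≤ 2 * s ^ 2 := by positivity
    calc 2 * s ^ 2 * Real.log x ≤ 2 * s ^ 2 * (4 * s) := mul_le_mul_of_nonneg_left hlogx h5
      _ = 8 * s ^ 3 := by ring
  have h6 : (x - 1) * 0.69 ≤ (x - 1) * Real.log 2 :=
    mul_le_mul_of_nonneg_left hlog2 (by linarith)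
  have h7 : 9.5 * s ^ 3 ≤ 0.19 * s ^ 4 := by
    have : 0 ≤ s ^ 3 * (s - 50) := mul_nonneg (by positivity) (by linarith)
    nlinarith
  have h8 : 2500 * s ≤ s ^ 3 := by
    have : 0 ≤ s * (s ^ 2 - 2500) := mul_nonneg hs0.le (by nlinarith)
    nlinarith
  rw [← hs] at h6 h1 ⊢
  rw [← hs] at hlogx2 h4
  nlinarith

theorem pf_HCU : T_HCU := by
  intro ε hε
  refine ⟨max 2 ((6250000 : ℝ) ^ (1 / ε)), le_max_left _ _, ?_⟩
  intro X L T hX hL _ hT hlT
  have hX2 : 2 ≤ X := (le_max_left _ _).trans hX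
  have hX0 : 0 < X := by linarith
  obtain ⟨W, hW⟩ : ∃ W, W = X ^ ε := ⟨_, rfl⟩
  have hWge : 6250000 ≤ W := by
    have h1 : ((6250000 : ℝ) ^ (1 / ε)) ^ ε ≤ X ^ ε :=
      Real.rpow_le_rpow (by positivity) ((le_max_right _ _).trans hX) hε.le
    rw [← Real.rpow_mul (by norm_num), one_div_mul_cancel hε.ne', Real.rpow_one] at h1
    rwa [hW]
  have hW3 : X ^ (3 * ε) = W ^ 3 := by
    rw [hW, ← Real.rpow_natCast, ← Real.rpow_mul hX0.le]
    congr 1
    push_cast
    ring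
  rw [hW3]
  rw [← hW] at hlT
  by_contra hcon
  push Not at hcon
  set Y : ℝ := L * W ^ 3 with hY
  have hW30 : (1 : ℝ) ≤ W ^ 3 := one_le_pow₀ (by linarith)
  have hLY : L ≤ Y := by nlinarith
  have hY1 : 6250000 ≤ Y := by
    have h1 : W ≤ W ^ 3 := by
      have : 0 ≤ W * (W ^ 2 - 1) := mul_nonneg (by linarith) (by nlinarith)
      nlinarith
    nlinarith
  have hθY := hcu_theta Y hY1
  have hθL := Chebyshev.theta_le_log4_mul_x (x := L) (by linarith)
  have hlog4 : Real.log 4 ≤ 1.4 := by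
    rw [show (4 : ℝ) = 2 ^ 2 by norm_num, Real.log_pow]
    have := Real.log_two_lt_d9
    push_cast
    linarith
  set S : Finset ℕ := (Finset.Ioc ⌊L⌋₊ ⌊Y⌋₊).filter Nat.Prime with hS
  have hSp : ∀ q ∈ S, q.Prime := fun q hq => (Finset.mem_filter.1 hq).2
  have hSd : ∀ q ∈ S, q ∣ T := by
    intro q hq
    obtain ⟨h1, h2⟩ := Finset.mem_filter.1 hq
    obtain ⟨h3, h4⟩ := Finset.mem_Ioc.1 h1
    by_contra hnd
    have h5 : L < q := (Nat.floor_lt (by linarith)).1 h3
    have h6 : (q : ℝ) ≤ Y := (Nat.le_floor_iff (by linarith)).1 h4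
    have := hcon q h2 hnd h5
    linarith
  have hprod : ∏ q ∈ S, q ∣ T :=
    Finset.prod_primes_dvd T (fun q hq => (hSp q hq).prime) hSd
  have hsum : ∑ q ∈ S, Real.log q ≤ Real.log T := by
    rw [← Real.log_prod (fun q hq => by exact_mod_cast (hSp q hq).ne_zero)]
    have h1 : 0 < ∏ q ∈ S, q := Finset.prod_pos fun q hq => (hSp q hq).pos
    have h2 : ∏ q ∈ S, q ≤ T := Nat.le_of_dvd (by omega) hprod
    rw [← Nat.cast_prod]
    exact Real.log_le_log (Nat.cast_pos.2 h1) (Nat.cast_le.2 h2)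
  have hθ : Chebyshev.theta Y = Chebyshev.theta L + ∑ q ∈ S, Real.log q := by
    unfold Chebyshev.theta
    rw [← Finset.sum_union]
    · congr 1
      rw [hS, ← Finset.filter_union, Finset.Ioc_union_Ioc_eq_Ioc (Nat.zero_le _)
        (Nat.floor_le_floor hLY)]
    · rw [hS]
      refine Finset.disjoint_filter_filter ?_
      rw [Finset.disjoint_left]
      intro q hq hq'
      rw [Finset.mem_Ioc] at hq hq'
      omega
  have h1 : Y / 2 ≤ 1.4 * L + 10 * W := by
    have h2 : Real.log 4 * L ≤ 1.4 * L := mul_le_mul_of_nonneg_right hlog4 (by linarith)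
    linarith
  rw [hY] at h1
  have h3 : 0 ≤ L * (W ^ 3 - 100 * W) :=
    mul_nonneg (by linarith) (by
      have : 0 ≤ W * (W ^ 2 - 100) := mul_nonneg (by linarith) (by nlinarith)
      nlinarith)
  have h4 : W ≤ L * W := by nlinarith
  have h5 : 6250000 * L ≤ L * W := by nlinarith
  nlinarith

end Pool.Agent.H33.AB
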